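import Pool.Agent.H76.SF.Stm2

/-! Crew SF, part LOG (helper36). -/

set_option autoImplicit false

namespace H36.SF

open Finset Classical H76.SF Pool.Agent.Results.MP_705b7e_co.StarForestBounds

/-- few leaves on the side of the centre -/
theorem few {U W : Type} [Fintype U] [Fintype W] {k : ℕ} {s : ℕ → ℕ} {a : ℕ}
    (ψ : (Σ i : Fin k, Option (Fin (s i))) → U ⊕ W) (hψ : Function.Injective ψ)
    (HU : U → U → Prop) (hHU : ∀ u, (univ.filter (fun v => HU u v)).card ≤ a)
    (hadj : ∀ (i : Fin k) (j : Fin (s i)) (u v : U), ψ ⟨i, none⟩ = Sum.inl u →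
      ψ ⟨i, some j⟩ = Sum.inl v → HU u v) (i : Fin k) (u : U) (hu : ψ ⟨i, none⟩ = Sum.inl u) :
    (univ.filter (fun j : Fin (s i) => ∃ v, ψ ⟨i, some j⟩ = Sum.inl v)).card ≤ a := by
  refine le_trans ?_ (hHU u)
  refine Finset.card_le_card_of_injOn
    (fun j => Sum.elim id (fun _ => u) (ψ ⟨i, some j⟩)) ?_ ?_
  · intro j hj
    obtain ⟨v, hv⟩ := (mem_filter.1 hj).2
    rw [mem_coe, mem_filter]
    refine ⟨mem_univ _, ?_⟩
    simp only [hv, Sum.elim_inl, id]
    exact hadj i j u v hu hv
  · intro j hj j' hj' h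
    obtain ⟨v, hv⟩ := (mem_filter.1 hj).2
    obtain ⟨v', hv'⟩ := (mem_filter.1 hj').2
    simp only [hv, hv', Sum.elim_inl, id] at h
    subst h
    have := hψ (hv.trans hv'.symm)
    simpa using this

theorem core {U W : Type} [Fintype U] [Fintype W] {k : ℕ} {s : ℕ → ℕ} {a : ℕ}
    (ψ : (Σ i : Fin k, Option (Fin (s i))) → U ⊕ W) (hψ : Function.Injective ψ)
    (HU : U → U → Prop) (hHU : ∀ u, (univ.filter (fun v => HU u v)).card ≤ a)
    (hadj : ∀ (i : Fin k) (j : Fin (s i)) (u v : U), ψ ⟨i, none⟩ = Sum.inl u →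
      ψ ⟨i, some j⟩ = Sum.inl v → HU u v) (hs : ∀ i < k, a < s i) (i0 : Fin k) (u0 : U)
    (hu0 : ψ ⟨i0, none⟩ = Sum.inl u0) : s i0 + k ≤ Fintype.card W + a + 1 := by
  have hright : ∀ i : Fin k, ∃ o : Option (Fin (s i)), ∃ w, ψ ⟨i, o⟩ = Sum.inr w := by
    intro i
    rcases h : ψ ⟨i, none⟩ with u | w
    · by_contra hno
      push Not at hno
      have h1 := few ψ hψ HU hHU hadj i u h
      have h2 : (univ.filter (fun j : Fin (s i) => ∃ v, ψ ⟨i, some j⟩ = Sum.inl v)) = univ := by
        rw [filter_eq_self]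
        intro j _
        rcases h3 : ψ ⟨i, some j⟩ with v | w
        · exact ⟨v, rfl⟩
        · exact absurd h3 (hno (some j) w)
      rw [h2, card_univ, Fintype.card_fin] at h1
      have := hs i i.2
      omega
    · exact ⟨none, w, h⟩
  choose o w ho using hright
  set A : Finset (Fin (s i0)) := univ.filter (fun j => ¬ ∃ v, ψ ⟨i0, some j⟩ = Sum.inl v) with hA
  have hAc : s i0 ≤ A.card + a := by
    have h1 := few ψ hψ HU hHU hadj i0 u0 hu0
    have h2 : (univ : Finset (Fin (s i0))).card ≤
        A.card + (univ.filter (fun j => ∃ v, ψ ⟨i0, some j⟩ = Sum.inl v)).card := by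
      refine le_trans (card_le_card (fun j _ => ?_)) (card_union_le _ _)
      rw [mem_union, hA, mem_filter, mem_filter]
      by_cases h : ∃ v, ψ ⟨i0, some j⟩ = Sum.inl v
      · exact Or.inr ⟨mem_univ _, h⟩
      · exact Or.inl ⟨mem_univ _, h⟩
    rw [card_univ, Fintype.card_fin] at h2
    omega
  set T1 : Finset (Σ i : Fin k, Option (Fin (s i))) := A.image (fun j => ⟨i0, some j⟩) with hT1
  set T2 : Finset (Σ i : Fin k, Option (Fin (s i))) :=
    (univ.erase i0).image (fun i => ⟨i, o i⟩) with hT2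
  have hT1c : T1.card = A.card := by
    rw [hT1]
    apply card_image_of_injective
    intro j j' h
    simpa using h
  have hT2c : T2.card = k - 1 := by
    rw [hT2, card_image_of_injective, card_erase_of_mem (mem_univ _), card_univ, Fintype.card_fin]
    intro i i' h
    exact congrArg Sigma.fst h
  have hdis : Disjoint T1 T2 := by
    rw [Finset.disjoint_left]
    intro x hx hx'
    rw [hT1, mem_image] at hx
    rw [hT2, mem_image] at hx'
    obtain ⟨j, _, rfl⟩ := hx
    obtain ⟨i, hi, h⟩ := hx'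
    exact (mem_erase.1 hi).1 (congrArg Sigma.fst h)
  have hall : ∀ x ∈ T1 ∪ T2, ∃ w, ψ x = Sum.inr w := by
    intro x hx
    rcases mem_union.1 hx with h | h
    · rw [hT1, mem_image] at h
      obtain ⟨j, hj, rfl⟩ := h
      rcases h3 : ψ ⟨i0, some j⟩ with v | w
      · exact absurd ⟨v, h3⟩ (mem_filter.1 hj).2
      · exact ⟨w, rfl⟩
    · rw [hT2, mem_image] at h
      obtain ⟨i, _, rfl⟩ := h
      exact ⟨_, ho i⟩
  have hcard : (T1 ∪ T2).card ≤ Fintype.card W := by
    have h1 : ((T1 ∪ T2).image ψ).card = (T1 ∪ T2).card := card_image_of_injective _ hψ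
    have h2 : (T1 ∪ T2).image ψ ⊆ (univ : Finset W).image Sum.inr := by
      intro y hy
      obtain ⟨x, hx, rfl⟩ := mem_image.1 hy
      obtain ⟨w, hw⟩ := hall x hx
      rw [hw]
      exact mem_image_of_mem _ (mem_univ _)
    have h3 := card_le_card h2
    have h4 : ((univ : Finset W).image (Sum.inr : W → U ⊕ W)).card ≤ Fintype.card W := by
      refine card_image_le.trans ?_
      rw [card_univ]
    omega
  rw [card_union_of_disjoint hdis, hT1c, hT2c] at hcard
  have := i0.2
  omega

/-- the colouring -/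
def Rad {U W : Type} (H1 : U → U → Prop) (H2 : W → W → Prop) : U ⊕ W → U ⊕ W → Prop
  | Sum.inl u, Sum.inl v => H1 u v
  | Sum.inr u, Sum.inr v => H2 u v
  | Sum.inl _, Sum.inr _ => True
  | Sum.inr _, Sum.inl _ => True

theorem blue {m a n : ℕ} (hm : m = n + a) (H : SimpleGraph (Fin m))
    (hH : ∀ v, (univ.filter (fun x => H.Adj v x)).card = a) (u : Fin m) (f : Fin n → Fin m)
    (hf : Function.Injective f) (h : ∀ j, f j ≠ u ∧ ¬ H.Adj u (f j)) : False := by
  have h1 : (univ.image f).card = n := by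
    rw [card_image_of_injective _ hf, card_univ, Fintype.card_fin]
  have h2 : insert u (univ.image f) ⊆ univ.filter (fun x => ¬ H.Adj u x) := by
    intro x hx
    rw [mem_filter]
    refine ⟨mem_univ _, ?_⟩
    rcases mem_insert.1 hx with rfl | hx
    · exact H.irrefl
    · obtain ⟨j, _, rfl⟩ := mem_image.1 hx
      exact (h j).2
  have h3 := card_le_card h2
  rw [card_insert_of_notMem, h1] at h3
  · have h4 := Finset.card_filter_add_card_filter_not (s := (univ : Finset (Fin m)))
      (fun x => H.Adj u x)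
    rw [hH u, card_univ, Fintype.card_fin] at h4
    omega
  · intro hmem
    obtain ⟨j, _, hj⟩ := mem_image.1 hmem
    exact (h j).1 hj

theorem t_LOG (hREG : S_REG) : S_LOG := by
  intro k s a b hk hs hea heb hA
  have hk0 : 0 < k := by omega
  have hn := hs 0 hk0
  obtain ⟨H1, hH1⟩ := hREG (s 0 + a) a (by omega) hea
  obtain ⟨H2, hH2⟩ := hREG (s 0 + b) b (by omega) heb
  have hN : 2 * s 0 + a + b = (s 0 + a) + (s 0 + b) := by ring
  let e : Fin (2 * s 0 + a + b) ≃ Fin (s 0 + a) ⊕ Fin (s 0 + b) :=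
    (finCongr hN).trans finSumFinEquiv.symm
  let R : SimpleGraph (Fin (2 * s 0 + a + b)) :=
    { Adj := fun x y => Rad H1.Adj H2.Adj (e x) (e y)
      symm := ⟨fun x y h => by
        revert h
        rcases e x with u | u <;> rcases e y with v | v
        · exact fun h => H1.adj_symm h
        · exact fun h => h
        · exact fun h => h
        · exact fun h => H2.adj_symm h⟩
      loopless := ⟨fun x h => by
        revert h
        rcases e x with u | u
        · exact H1.irrefl
        · exact H2.irrefl⟩ }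
  rcases hA R with hφ | hφ
  · obtain ⟨φ⟩ := hφ
    have hψ : Function.Injective (fun x => e (φ x)) := e.injective.comp φ.injective
    have hadj : ∀ (i : Fin k) (j : Fin (s i)),
        Rad H1.Adj H2.Adj (e (φ ⟨i, none⟩)) (e (φ ⟨i, some j⟩)) := by
      intro i j
      exact φ.toHom.map_adj (starForest_adj k s i _)
    rcases h0 : e (φ ⟨⟨0, hk0⟩, none⟩) with u0 | u0
    · have := core (fun x => e (φ x)) hψ H1.Adj (fun u => (hH1 u).le) (by
        intro i j u v hu hv
        have h := hadj i j
        have hu' : e (φ ⟨i, none⟩) = Sum.inl u := hu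
        have hv' : e (φ ⟨i, some j⟩) = Sum.inl v := hv
        rw [hu', hv'] at h
        exact h) (fun i hi => (hs i hi).1) ⟨0, hk0⟩ u0 h0
      rw [Fintype.card_fin] at this
      simp only at this
      omega
    · have := core (fun x => (e (φ x)).swap) (fun x y h => hψ (by
          have h' := congrArg Sum.swap h
          simpa using h')) H2.Adj (fun u => (hH2 u).le) (by
        intro i j u v hu hv
        have h := hadj i j
        have hu' : e (φ ⟨i, none⟩) = Sum.inr u := by
          have := congrArg Sum.swap hu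
          simpa using this
        have hv' : e (φ ⟨i, some j⟩) = Sum.inr v := by
          have := congrArg Sum.swap hv
          simpa using this
        rw [hu', hv'] at h
        exact h) (fun i hi => (hs i hi).2) ⟨0, hk0⟩ u0 (by simp only [h0, Sum.swap_inr])
      rw [Fintype.card_fin] at this
      simp only at this
      omega
  · obtain ⟨φ⟩ := hφ
    have hψ : Function.Injective (fun x => e (φ x)) := e.injective.comp φ.injective
    have hadj : ∀ (j : Fin (s 0)), φ ⟨⟨0, hk0⟩, none⟩ ≠ φ ⟨⟨0, hk0⟩, some j⟩ ∧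
        ¬ Rad H1.Adj H2.Adj (e (φ ⟨⟨0, hk0⟩, none⟩)) (e (φ ⟨⟨0, hk0⟩, some j⟩)) := by
      intro j
      have h1 : Rᶜ.Adj (φ ⟨⟨0, hk0⟩, none⟩) (φ ⟨⟨0, hk0⟩, some j⟩) :=
        φ.toHom.map_adj (starForest_adj k s ⟨0, hk0⟩ _)
      rw [SimpleGraph.compl_adj] at h1
      exact h1
    rcases h0 : e (φ ⟨⟨0, hk0⟩, none⟩) with u0 | u0
    · have hl : ∀ j : Fin (s 0), ∃ v, e (φ ⟨⟨0, hk0⟩, some j⟩) = Sum.inl v := by
        intro j
        rcases h2 : e (φ ⟨⟨0, hk0⟩, some j⟩) with v | v
        · exact ⟨v, rfl⟩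
        · have h3 := (hadj j).2
          rw [h0, h2] at h3
          exact absurd trivial h3
      choose f hf using hl
      refine blue rfl H1 hH1 u0 f ?_ ?_
      · intro j j' h
        have h4 : e (φ ⟨⟨0, hk0⟩, some j⟩) = e (φ ⟨⟨0, hk0⟩, some j'⟩) := by rw [hf, hf, h]
        have := hψ h4
        simpa using this
      · intro j
        refine ⟨fun h => (hadj j).1 (e.injective (by rw [h0, hf, h])), ?_⟩
        have h3 := (hadj j).2
        rw [h0, hf] at h3
        exact h3
    · have hl : ∀ j : Fin (s 0), ∃ v, e (φ ⟨⟨0, hk0⟩, some j⟩) = Sum.inr v := by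
        intro j
        rcases h2 : e (φ ⟨⟨0, hk0⟩, some j⟩) with v | v
        · have h3 := (hadj j).2
          rw [h0, h2] at h3
          exact absurd trivial h3
        · exact ⟨v, rfl⟩
      choose f hf using hl
      refine blue rfl H2 hH2 u0 f ?_ ?_
      · intro j j' h
        have h4 : e (φ ⟨⟨0, hk0⟩, some j⟩) = e (φ ⟨⟨0, hk0⟩, some j'⟩) := by rw [hf, hf, h]
        have := hψ h4
        simpa using this
      · intro j
        refine ⟨fun h => (hadj j).1 (e.injective (by rw [h0, hf, h])), ?_⟩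
        have h3 := (hadj j).2
        rw [h0, hf] at h3
        exact h3

end H36.SF
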